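import Pool.Agent.H636R2.Rig.Main

set_option autoImplicit false

/-!
Problem MP_0775d3_lc (explicit rigid matrices).  Let `p` be a polynomial with natural coefficients
and values at least `12`.  The matrix `A_n` whose entry `(i, j)` is the positive `2 ^ p(n)`-th root
of the prime number of index `n i + j` (obtained by extracting `p(n)` times a square root) has
almost the largest possible rigidity `(n - r) ^ 2` at every rank `r` simultaneously: it is
`(r, (n - r) ^ 2 - d)`-rigid, over the real and over the complex numbers, as soon as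
`p(n) d ≥ 4 n ^ 2`.  With `p` constant the entries are algebraic numbers of bounded degree and
polynomial height and the loss `d` is an arbitrarily small multiple of `n ^ 2`; with
`p(n) = 4 n ^ 2 + 12` the rigidity is exactly the largest possible.  The family is explicit: the
minimal polynomials of the entries and isolating intervals are computed by a Turing machine in
time polynomial in `n`.
-/

namespace Pool.Agent.Results.MP_0775d3_lc.MaximalRigidity

open Pool.Agent.H636R2.Rig Filter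

theorem main (p : Polynomial ℕ) (hp : ∀ n, 12 ≤ p.eval n) (n d r s : ℕ) (hd : 1 ≤ d)
    (hpd : 4 * n ^ 2 ≤ p.eval n * d) (hr : r ≤ n) (hs : s + d ≤ (n - r) ^ 2) :
    Rigid (rootMatrix (fun m => p.eval m) n) r s ∧
      Rigid ((rootMatrix (fun m => p.eval m) n).map (fun x : ℝ => (x : ℂ))) r s :=
  rigid_real_complex (p.eval n) d r s (Or.inl (hp n)) hd hpd hr hs _ (fun _ _ => rfl)

theorem Rigid.mono {K : Type*} [Field K] {n : ℕ} {A : Matrix (Fin n) (Fin n) K} {r s r' s' : ℕ}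
    (h : Rigid A r s) (hr : r' ≤ r) (hs : s' ≤ s) : Rigid A r' s' :=
  fun ⟨R, S, h1, h2, h3⟩ => h ⟨R, S, h1, h2.trans hr, h3.trans hs⟩

theorem result (p : Polynomial ℕ) (hp : ∀ n, 12 ≤ p.eval n) :
    Explicit (rootMatrix (fun n => p.eval n)) ∧
    (∀ n d r s : ℕ, 1 ≤ d → 4 * n ^ 2 ≤ p.eval n * d → r ≤ n → s + d ≤ (n - r) ^ 2 →
      Rigid (rootMatrix (fun m => p.eval m) n) r s ∧
      Rigid ((rootMatrix (fun m => p.eval m) n).map (fun x : ℝ => (x : ℂ))) r s) ∧
    (∀ δ : ℝ, δ < 1 → ∀ᶠ n : ℕ in atTop,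
      Rigid (rootMatrix (fun m => p.eval m) n) ⌊(1 / 4 : ℝ) * n⌋₊ ⌊(n : ℝ) ^ (1 + δ)⌋₊ ∧
      Rigid ((rootMatrix (fun m => p.eval m) n).map (fun x : ℝ => (x : ℂ)))
        ⌊(1 / 4 : ℝ) * n⌋₊ ⌊(n : ℝ) ^ (1 + δ)⌋₊) := by
  refine ⟨?_, fun n d r s => main p hp n d r s, ?_⟩
  · apply explicit_rootMatrix
    · intro n _
      have := hp n
      omega
    · exact Pool.Agent.NPC.UPoly.eval uPoly_len p
  · intro δ hδ
    have h1 : Tendsto (fun n : ℕ => (n : ℝ) ^ (1 - δ)) atTop atTop :=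
      (tendsto_rpow_atTop (by linarith)).comp tendsto_natCast_atTop_atTop
    filter_upwards [h1.eventually_ge_atTop 24, eventually_ge_atTop 24] with n hn hn24
    have hn0 : (0 : ℝ) < n := by
      have : 0 < n := by omega
      exact_mod_cast this
    have hr : ⌊(1 / 4 : ℝ) * n⌋₊ ≤ n / 4 := by
      have h2 : ⌊(1 / 4 : ℝ) * n⌋₊ = n / 4 := by
        have : (1 / 4 : ℝ) * n = (n : ℝ) / (4 : ℕ) := by push_cast; ring
        rw [this, Nat.floor_div_natCast, Nat.floor_natCast]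
      exact h2.le
    have hs : ⌊(n : ℝ) ^ (1 + δ)⌋₊ ≤ n ^ 2 / 24 := by
      rw [Nat.le_div_iff_mul_le (by norm_num)]
      have h3 : (n : ℝ) ^ (1 + δ) * 24 ≤ (n : ℝ) ^ 2 := by
        calc (n : ℝ) ^ (1 + δ) * 24 ≤ (n : ℝ) ^ (1 + δ) * (n : ℝ) ^ (1 - δ) := by gcongr
          _ = (n : ℝ) ^ (2 : ℝ) := by rw [← Real.rpow_add hn0]; norm_num
          _ = (n : ℝ) ^ 2 := by norm_num
      have h4 : ((⌊(n : ℝ) ^ (1 + δ)⌋₊ * 24 : ℕ) : ℝ) ≤ ((n ^ 2 : ℕ) : ℝ) := by
        push_cast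
        refine le_trans ?_ h3
        gcongr
        exact Nat.floor_le (by positivity)
      exact_mod_cast h4
    have h := main p hp n (n ^ 2 / 3 + 1) (n / 4) (n ^ 2 / 24) (by omega) ?_ (by omega) ?_
    · exact ⟨Rigid.mono h.1 hr hs, Rigid.mono h.2 hr hs⟩
    · calc 4 * n ^ 2 ≤ 12 * (n ^ 2 / 3 + 1) := by omega
        _ ≤ p.eval n * (n ^ 2 / 3 + 1) := Nat.mul_le_mul_right _ (hp n)
    · -- `n²/24 + n²/3 + 1 ≤ (n - n/4)²`
      obtain ⟨k, hk⟩ : ∃ k, k = n - n / 4 := ⟨_, rfl⟩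
      rw [← hk]
      have h5 : 3 * n ≤ 4 * k := by omega
      have h6 : 9 * n ^ 2 ≤ 16 * k ^ 2 := by nlinarith
      have h7 : 576 ≤ n ^ 2 := by nlinarith
      omega

end Pool.Agent.Results.MP_0775d3_lc.MaximalRigidity
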