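import Mathlib
import Pool.Agent.H525R3.Toep.Toeplitz

/-!
# Toeplitz and Hankel matrices over every field are polynomially non-rigid
-/

set_option autoImplicit false

open Finset Pool.Agent.H525R3.Toep

namespace Pool.Agent.Results.MP_0775d3_lc.ToeplitzNotRigid

universe u

/-- `A` is `(r, s)`-rigid: there is no decomposition `A = R + S` with `rank R ≤ r` and at most `s`
nonzero entries in `S`. -/
def Rigid {F : Type u} [Field F] {ι κ : Type} [Fintype ι] [Fintype κ] (A : Matrix ι κ F)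
    (r s : ℝ) : Prop :=
  ¬ ∃ R S : Matrix ι κ F, A = R + S ∧ (R.rank : ℝ) ≤ r ∧
    (Nat.card {p : ι × κ // S p.1 p.2 ≠ 0} : ℝ) ≤ s

theorem five_pow (k : ℕ) : ((2 : ℝ) ^ (208 * k)) ^ (1 / 90 : ℝ) ≤ 5 ^ k := by
  have h1 : ((2 : ℝ) ^ (208 * k)) ≤ (5 ^ k) ^ (90 : ℕ) := by
    rw [← pow_mul, mul_comm k 90, pow_mul, pow_mul]
    exact pow_le_pow_left₀ (by norm_num) (by norm_num) k
  calc ((2 : ℝ) ^ (208 * k)) ^ (1 / 90 : ℝ) ≤ ((5 ^ k : ℝ) ^ (90 : ℕ)) ^ (1 / 90 : ℝ) :=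
        Real.rpow_le_rpow (by positivity) h1 (by norm_num)
    _ = 5 ^ k := by
        have := Real.pow_rpow_inv_natCast (x := (5 ^ k : ℝ)) (n := 90) (by positivity) (by norm_num)
        rw [show (1 / 90 : ℝ) = ((90 : ℕ) : ℝ)⁻¹ by norm_num]
        exact this

theorem bound_rank {k : ℕ} {M v : ℝ} (hM : 0 ≤ M) (h2 : (2 : ℝ) ^ (208 * k) ≤ 2 ^ 208 * M)
    (hv : v * 5 ^ k ≤ 2 * 2 ^ (208 * k)) : v ≤ 2 ^ 417 * M ^ (1 - 1 / 90 : ℝ) := by
  set T : ℝ := 2 ^ (208 * k) with hT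
  have hT0 : 0 < T := by positivity
  have h5 := five_pow k
  rw [← hT] at h5
  have hTp : 0 < T ^ (1 / 90 : ℝ) := Real.rpow_pos_of_pos hT0 _
  have h6 : v ≤ 2 * T ^ (1 - 1 / 90 : ℝ) := by
    by_cases hv0 : v ≤ 0
    · exact hv0.trans (by positivity)
    · push Not at hv0
      rw [Real.rpow_sub hT0, Real.rpow_one]
      rw [mul_div_assoc', le_div_iff₀ hTp]
      exact (mul_le_mul_of_nonneg_left h5 hv0.le).trans hv
  refine h6.trans ?_
  calc 2 * T ^ (1 - 1 / 90 : ℝ) ≤ 2 * (2 ^ 208 * M) ^ (1 - 1 / 90 : ℝ) := by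
        apply mul_le_mul_of_nonneg_left _ (by norm_num)
        exact Real.rpow_le_rpow hT0.le h2 (by norm_num)
    _ = 2 * ((2 ^ 208 : ℝ) ^ (1 - 1 / 90 : ℝ) * M ^ (1 - 1 / 90 : ℝ)) := by
        rw [Real.mul_rpow (by positivity) hM]
    _ ≤ 2 * ((2 ^ 208 : ℝ) ^ (1 : ℝ) * M ^ (1 - 1 / 90 : ℝ)) := by
        have : (2 ^ 208 : ℝ) ^ (1 - 1 / 90 : ℝ) ≤ (2 ^ 208 : ℝ) ^ (1 : ℝ) :=
          Real.rpow_le_rpow_of_exponent_le (by norm_num) (by norm_num)
        gcongr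
    _ ≤ 2 ^ 417 * M ^ (1 - 1 / 90 : ℝ) := by
        rw [Real.rpow_one, ← mul_assoc]
        apply mul_le_mul_of_nonneg_right _ (Real.rpow_nonneg hM _)
        rw [← pow_succ']
        exact pow_le_pow_right₀ (by norm_num) (by norm_num)

theorem bound_sparse {k : ℕ} {M v : ℝ} (hM : 0 ≤ M) (h2 : (2 : ℝ) ^ (208 * k) ≤ 2 ^ 208 * M)
    (hv : v * 5 ^ k ≤ 2 * 4 ^ (208 * k)) : v ≤ 2 ^ 417 * M ^ (2 - 1 / 90 : ℝ) := by
  set T : ℝ := 2 ^ (208 * k) with hT
  have hT0 : 0 < T := by positivity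
  have h4 : (4 : ℝ) ^ (208 * k) = T ^ (2 : ℝ) := by
    rw [hT, show (4 : ℝ) = 2 ^ 2 by norm_num, ← pow_mul, mul_comm 2, pow_mul]
    norm_cast
  rw [h4] at hv
  have h5 := five_pow k
  rw [← hT] at h5
  have hTp : 0 < T ^ (1 / 90 : ℝ) := Real.rpow_pos_of_pos hT0 _
  have h6 : v ≤ 2 * T ^ (2 - 1 / 90 : ℝ) := by
    by_cases hv0 : v ≤ 0
    · exact hv0.trans (by positivity)
    · push Not at hv0
      rw [Real.rpow_sub hT0]
      rw [mul_div_assoc', le_div_iff₀ hTp]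
      exact (mul_le_mul_of_nonneg_left h5 hv0.le).trans hv
  refine h6.trans ?_
  calc 2 * T ^ (2 - 1 / 90 : ℝ) ≤ 2 * (2 ^ 208 * M) ^ (2 - 1 / 90 : ℝ) := by
        apply mul_le_mul_of_nonneg_left _ (by norm_num)
        exact Real.rpow_le_rpow hT0.le h2 (by norm_num)
    _ = 2 * ((2 ^ 208 : ℝ) ^ (2 - 1 / 90 : ℝ) * M ^ (2 - 1 / 90 : ℝ)) := by
        rw [Real.mul_rpow (by positivity) hM]
    _ ≤ 2 * ((2 ^ 208 : ℝ) ^ (2 : ℝ) * M ^ (2 - 1 / 90 : ℝ)) := by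
        have : (2 ^ 208 : ℝ) ^ (2 - 1 / 90 : ℝ) ≤ (2 ^ 208 : ℝ) ^ (2 : ℝ) :=
          Real.rpow_le_rpow_of_exponent_le (by norm_num) (by norm_num)
        gcongr
    _ ≤ 2 ^ 417 * M ^ (2 - 1 / 90 : ℝ) := by
        rw [← mul_assoc]
        apply mul_le_mul_of_nonneg_right _ (Real.rpow_nonneg hM _)
        rw [show ((2 : ℝ) ^ 208) ^ (2 : ℝ) = ((2 : ℝ) ^ 208) ^ (2 : ℕ) from
          Real.rpow_natCast ((2 : ℝ) ^ 208) 2, ← pow_mul, ← pow_succ']

theorem exists_k (M : ℕ) (hM : 0 < M) :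
    ∃ k : ℕ, M ≤ 2 ^ (208 * k) ∧ (2 : ℝ) ^ (208 * k) ≤ 2 ^ 208 * (M : ℝ) := by
  have hM1 : (1 : ℝ) ≤ M := by exact_mod_cast hM
  refine ⟨Nat.clog (2 ^ 208) M, ?_, ?_⟩
  · rw [pow_mul]
    exact Nat.le_pow_clog (Nat.one_lt_two_pow (by norm_num)) M
  · rcases Nat.eq_zero_or_pos (Nat.clog (2 ^ 208) M) with hc | hc
    · rw [hc]
      simp only [mul_zero, pow_zero]
      nlinarith [show (1 : ℝ) ≤ 2 ^ 208 by norm_num]
    · have h1 : 1 < M := by
        by_contra hcon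
        have : M = 1 := by omega
        rw [this, Nat.clog_one_right] at hc
        exact absurd hc (lt_irrefl _)
      have h2 := Nat.pow_pred_clog_lt_self (b := 2 ^ 208) (Nat.one_lt_two_pow (by norm_num)) h1
      have h3 : ((2 : ℝ) ^ 208) ^ (Nat.clog (2 ^ 208) M).pred ≤ M := by exact_mod_cast h2.le
      obtain ⟨c, hc'⟩ : ∃ c, Nat.clog (2 ^ 208) M = c + 1 := ⟨_, (Nat.succ_pred_eq_of_pos hc).symm⟩
      rw [hc', Nat.pred_succ] at h3
      rw [hc', pow_mul, pow_succ, mul_comm]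
      exact mul_le_mul_of_nonneg_left h3 (by positivity)

theorem main {F : Type u} [Field F] {ι κ : Type} [Fintype ι] [Fintype κ] {M k : ℕ}
    (h2 : (2 : ℝ) ^ (208 * k) ≤ 2 ^ 208 * (M : ℝ)) (G : (Fin (208 * k) → Fin 3) → F)
    (ex : ι → (Fin (208 * k) → Fin 2)) (ey : κ → (Fin (208 * k) → Fin 2))
    (hx : Function.Injective ex) (hy : Function.Injective ey) :
    ¬ Rigid (Matrix.of fun i j => G (fun l => st (ex i l) (ey j l)))
      (2 ^ 417 * (M : ℝ) ^ (1 - 1 / 90 : ℝ)) (2 ^ 417 * (M : ℝ) ^ (2 - 1 / 90 : ℝ)) := by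
  classical
  unfold Rigid
  rw [not_not]
  obtain ⟨R, S, h, hr, hs⟩ := digit_decomp k G ex ey hx hy
  exact ⟨R, S, h, bound_rank (Nat.cast_nonneg _) h2 hr, bound_sparse (Nat.cast_nonneg _) h2 hs⟩

/-- Toeplitz matrices. -/
theorem toeplitz {F : Type u} [Field F] (N : ℕ) (hN : 0 < N) (g : ℤ → F) :
    ¬ Rigid (Matrix.of fun i j : Fin N => g ((i : ℤ) - (j : ℤ)))
      (2 ^ 417 * (N : ℝ) ^ (1 - 1 / 90 : ℝ)) (2 ^ 417 * (N : ℝ) ^ (2 - 1 / 90 : ℝ)) := by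
  obtain ⟨k, hk1, hk2⟩ := exists_k N hN
  obtain ⟨enc, henc⟩ := exists_enc hk1
  have hinj : Function.Injective enc := by
    intro i j hij
    have := henc i
    rw [hij, henc j] at this
    exact Fin.ext this.symm
  have h := main hk2 (fun s => g (∑ l : Fin (208 * k), vl (s l) * 2 ^ (l : ℕ))) enc enc hinj hinj
  have he : (Matrix.of fun i j : Fin N => g ((i : ℤ) - (j : ℤ))) = Matrix.of fun i j : Fin N =>
      (fun s : Fin (208 * k) → Fin 3 => g (∑ l : Fin (208 * k), vl (s l) * 2 ^ (l : ℕ)))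
        (fun l => st (enc i l) (enc j l)) := by
    ext i j
    simp only [Matrix.of_apply]
    rw [num_sub, henc, henc]
  rw [he]
  exact h

/-- Hankel matrices. -/
theorem hankel {F : Type u} [Field F] (N : ℕ) (hN : 0 < N) (g : ℤ → F) :
    ¬ Rigid (Matrix.of fun i j : Fin N => g ((i : ℤ) + (j : ℤ)))
      (2 ^ 417 * (N : ℝ) ^ (1 - 1 / 90 : ℝ)) (2 ^ 417 * (N : ℝ) ^ (2 - 1 / 90 : ℝ)) := by
  obtain ⟨k, hk1, hk2⟩ := exists_k N hN
  obtain ⟨enc, henc⟩ := exists_enc hk1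
  have hinj : Function.Injective enc := by
    intro i j hij
    have := henc i
    rw [hij, henc j] at this
    exact Fin.ext this.symm
  have hinj' : Function.Injective (fun j : Fin N => enc (Fin.rev j)) :=
    hinj.comp Fin.rev_injective
  have h := main hk2 (fun s => g ((∑ l : Fin (208 * k), vl (s l) * 2 ^ (l : ℕ)) + (N - 1)))
    enc (fun j => enc (Fin.rev j)) hinj hinj'
  have he : (Matrix.of fun i j : Fin N => g ((i : ℤ) + (j : ℤ))) = Matrix.of fun i j : Fin N =>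
      (fun s : Fin (208 * k) → Fin 3 =>
        g ((∑ l : Fin (208 * k), vl (s l) * 2 ^ (l : ℕ)) + (N - 1)))
        (fun l => st (enc i l) (enc (Fin.rev j) l)) := by
    ext i j
    simp only [Matrix.of_apply]
    rw [num_sub, henc, henc, Fin.val_rev]
    congr 1
    have := j.2
    push_cast [Nat.cast_sub (show (j : ℕ) + 1 ≤ N from this)]
    ring
  rw [he]
  exact h

/-- Functions of the digitwise difference of two strings of bits. -/
theorem digits {F : Type u} [Field F] (n : ℕ) (g : (Fin n → ℤ) → F) :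
    ¬ Rigid (Matrix.of fun x y : Fin n → Fin 2 => g (fun l => ((x l : ℕ) : ℤ) - ((y l : ℕ) : ℤ)))
      (2 ^ 417 * ((2 ^ n : ℕ) : ℝ) ^ (1 - 1 / 90 : ℝ))
      (2 ^ 417 * ((2 ^ n : ℕ) : ℝ) ^ (2 - 1 / 90 : ℝ)) := by
  obtain ⟨k, hk1, hk2⟩ := exists_k (2 ^ n) (by positivity)
  have hnk : n ≤ 208 * k := (Nat.pow_le_pow_iff_right (by norm_num)).1 hk1
  let enc : (Fin n → Fin 2) → (Fin (208 * k) → Fin 2) := fun x l =>
    if h : (l : ℕ) < n then x ⟨l, h⟩ else 0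
  have henc : ∀ (x : Fin n → Fin 2) (l : Fin n), enc x (Fin.castLE hnk l) = x l := by
    intro x l
    simp [enc]
  have hinj : Function.Injective enc := by
    intro x y hxy
    funext l
    rw [← henc x l, ← henc y l, hxy]
  have h := main hk2 (fun s => g (fun l => vl (s (Fin.castLE hnk l)))) enc enc hinj hinj
  have he : (Matrix.of fun x y : Fin n → Fin 2 =>
      g (fun l => ((x l : ℕ) : ℤ) - ((y l : ℕ) : ℤ))) = Matrix.of fun x y : Fin n → Fin 2 =>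
      (fun s : Fin (208 * k) → Fin 3 => g (fun l => vl (s (Fin.castLE hnk l))))
        (fun l => st (enc x l) (enc y l)) := by
    ext x y
    simp only [Matrix.of_apply]
    congr 1
    funext l
    rw [vl_st, henc, henc]
  rw [he]
  exact h

theorem Rigid.mono {F : Type u} [Field F] {ι κ : Type} [Fintype ι] [Fintype κ]
    {A : Matrix ι κ F} {r s r' s' : ℝ} (h : Rigid A r s) (hr : r' ≤ r) (hs : s' ≤ s) :
    Rigid A r' s' := by
  rintro ⟨R, S, h1, h2, h3⟩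
  exact h ⟨R, S, h1, h2.trans hr, h3.trans hs⟩

theorem eventually_small {a b C : ℝ} (_ha : 0 < a) (hab : b < a) (_hC : 0 < C) :
    ∃ N0 : ℕ, ∀ N ≥ N0, C * (N : ℝ) ^ b ≤ (N : ℝ) ^ a := by
  have h := (tendsto_rpow_atTop (sub_pos.2 hab)).comp tendsto_natCast_atTop_atTop
  obtain ⟨N0, hN0⟩ := (h.eventually_ge_atTop C).exists_forall_of_atTop
  refine ⟨max N0 1, fun N hN => ?_⟩
  have h1 := hN0 N (le_trans (le_max_left _ _) hN)
  have hN1 : 1 ≤ N := le_trans (le_max_right _ _) hN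
  have hpos : (0 : ℝ) < N := by exact_mod_cast hN1
  simp only [Function.comp] at h1
  rw [Real.rpow_sub hpos, le_div_iff₀ (Real.rpow_pos_of_pos hpos _)] at h1
  exact h1

/-- Scaling rows and columns preserves non-rigidity. -/
theorem not_rigid_scale {F : Type u} [Field F] {ι κ : Type} [Fintype ι] [Fintype κ]
    (A : Matrix ι κ F) (r s : ℝ) (h : ¬ Rigid A r s) (a : ι → F) (b : κ → F) :
    ¬ Rigid (Matrix.of fun i j => a i * b j * A i j) r s := by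
  classical
  unfold Rigid at h ⊢
  rw [not_not] at h ⊢
  obtain ⟨R, S, h1, h2, h3⟩ := h
  refine ⟨Matrix.diagonal a * R * Matrix.diagonal b, Matrix.diagonal a * S * Matrix.diagonal b,
    ?_, ?_, ?_⟩
  · rw [← Matrix.add_mul, ← Matrix.mul_add, ← h1]
    ext i j
    rw [Matrix.mul_diagonal, Matrix.diagonal_mul, Matrix.of_apply]
    ring
  · refine le_trans ?_ h2
    exact_mod_cast (Matrix.rank_mul_le_left (Matrix.diagonal a * R) (Matrix.diagonal b)).trans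
      (Matrix.rank_mul_le_right (Matrix.diagonal a) R)
  · refine le_trans ?_ h3
    have : Nat.card {p : ι × κ //
        (Matrix.diagonal a * S * Matrix.diagonal b) p.1 p.2 ≠ 0} ≤
        Nat.card {p : ι × κ // S p.1 p.2 ≠ 0} := by
      apply Nat.card_le_card_of_injective (fun p => (⟨p.1, ?_⟩ : {p : ι × κ // S p.1 p.2 ≠ 0}))
      · intro p q hpq
        have h := congrArg Subtype.val hpq
        exact Subtype.ext h
      · intro h0
        apply p.2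
        rw [Matrix.mul_diagonal, Matrix.diagonal_mul, h0, mul_zero, zero_mul]
    exact_mod_cast this

theorem choose_two_add (i j : ℕ) : (i + j).choose 2 = i.choose 2 + j.choose 2 + i * j := by
  induction j with
  | zero => simp
  | succ j ih =>
    rw [← add_assoc, Nat.choose_succ_succ' (i + j) 1, ih, Nat.choose_succ_succ' j 1,
      Nat.choose_one_right, Nat.choose_one_right]
    ring

/-- The matrices `(a_i b_j g(i-j))`. -/
theorem toeplitz' {F : Type u} [Field F] (N : ℕ) (hN : 0 < N) (a b : Fin N → F) (g : ℤ → F) :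
    ¬ Rigid (Matrix.of fun i j : Fin N => a i * b j * g ((i : ℤ) - (j : ℤ)))
      (2 ^ 417 * (N : ℝ) ^ (1 - 1 / 90 : ℝ)) (2 ^ 417 * (N : ℝ) ^ (2 - 1 / 90 : ℝ)) :=
  not_rigid_scale _ _ _ (toeplitz N hN g) a b

/-- The matrices `(a_i b_j g(i+j))`. -/
theorem hankel' {F : Type u} [Field F] (N : ℕ) (hN : 0 < N) (a b : Fin N → F) (g : ℤ → F) :
    ¬ Rigid (Matrix.of fun i j : Fin N => a i * b j * g ((i : ℤ) + (j : ℤ)))
      (2 ^ 417 * (N : ℝ) ^ (1 - 1 / 90 : ℝ)) (2 ^ 417 * (N : ℝ) ^ (2 - 1 / 90 : ℝ)) :=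
  not_rigid_scale _ _ _ (hankel N hN g) a b

/-- Fourier-Vandermonde matrices are Hankel matrices up to scaling of rows and columns. -/
theorem fourier_eq {F : Type u} [Field F] (N : ℕ) (q : F) (hq : q ≠ 0) :
    (Matrix.of fun i j : Fin N => q ^ ((i : ℕ) * (j : ℕ))) =
      Matrix.of fun i j : Fin N => (q ^ (i : ℕ).choose 2)⁻¹ * (q ^ (j : ℕ).choose 2)⁻¹ *
        (fun z : ℤ => q ^ z.toNat.choose 2) ((i : ℤ) + (j : ℤ)) := by
  ext i j
  have h1 : ((i : ℤ) + (j : ℤ)).toNat = (i : ℕ) + (j : ℕ) := by omega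
  simp only [Matrix.of_apply]
  rw [h1, choose_two_add, pow_add, pow_add]
  field_simp

theorem fourier {F : Type u} [Field F] (N : ℕ) (hN : 0 < N) (q : F) (hq : q ≠ 0) :
    ¬ Rigid (Matrix.of fun i j : Fin N => q ^ ((i : ℕ) * (j : ℕ)))
      (2 ^ 417 * (N : ℝ) ^ (1 - 1 / 90 : ℝ)) (2 ^ 417 * (N : ℝ) ^ (2 - 1 / 90 : ℝ)) := by
  rw [fourier_eq N q hq]
  exact hankel' N hN (fun i => (q ^ (i : ℕ).choose 2)⁻¹) (fun j => (q ^ (j : ℕ).choose 2)⁻¹)
    (fun z : ℤ => q ^ z.toNat.choose 2)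

/-- **Main theorem.** Over every field, a Toeplitz or Hankel `N × N` matrix with arbitrarily scaled
rows and columns, and the Fourier-Vandermonde matrix `(q^(ij))`, `q ≠ 0`, is the sum of a matrix of
rank at most `C N^(1-1/90)` and a matrix with at most `C N^(2-1/90)` nonzero entries, `C = 2^417`.
So for every `ε > 0` and all large `N`, no such matrix over any field is
`(N^(1-1/91), N^(2-1/91))`-rigid or `(ε N, N^(2-1/91))`-rigid. -/
theorem result :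
    (∀ (N : ℕ), 0 < N → ∀ (F : Type u) [Field F] (A : Matrix (Fin N) (Fin N) F),
      ((∃ (a b : Fin N → F) (g : ℤ → F),
          A = Matrix.of fun i j : Fin N => a i * b j * g ((i : ℤ) - (j : ℤ))) ∨
        (∃ (a b : Fin N → F) (g : ℤ → F),
          A = Matrix.of fun i j : Fin N => a i * b j * g ((i : ℤ) + (j : ℤ))) ∨
        (∃ q : F, q ≠ 0 ∧ A = Matrix.of fun i j : Fin N => q ^ ((i : ℕ) * (j : ℕ)))) →
      ¬ Rigid A (2 ^ 417 * (N : ℝ) ^ (1 - 1 / 90 : ℝ)) (2 ^ 417 * (N : ℝ) ^ (2 - 1 / 90 : ℝ))) ∧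
    (∀ ε : ℝ, 0 < ε → ∃ N0 : ℕ, ∀ N ≥ N0, ∀ (F : Type u) [Field F] (A : Matrix (Fin N) (Fin N) F),
      ((∃ (a b : Fin N → F) (g : ℤ → F),
          A = Matrix.of fun i j : Fin N => a i * b j * g ((i : ℤ) - (j : ℤ))) ∨
        (∃ (a b : Fin N → F) (g : ℤ → F),
          A = Matrix.of fun i j : Fin N => a i * b j * g ((i : ℤ) + (j : ℤ))) ∨
        (∃ q : F, q ≠ 0 ∧ A = Matrix.of fun i j : Fin N => q ^ ((i : ℕ) * (j : ℕ)))) →
      ¬ Rigid A ((N : ℝ) ^ (1 - 1 / 91 : ℝ)) ((N : ℝ) ^ (2 - 1 / 91 : ℝ)) ∧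
      ¬ Rigid A (ε * N) ((N : ℝ) ^ (2 - 1 / 91 : ℝ))) := by
  have hmain : ∀ (N : ℕ), 0 < N → ∀ (F : Type u) [Field F] (A : Matrix (Fin N) (Fin N) F),
      ((∃ (a b : Fin N → F) (g : ℤ → F),
          A = Matrix.of fun i j : Fin N => a i * b j * g ((i : ℤ) - (j : ℤ))) ∨
        (∃ (a b : Fin N → F) (g : ℤ → F),
          A = Matrix.of fun i j : Fin N => a i * b j * g ((i : ℤ) + (j : ℤ))) ∨
        (∃ q : F, q ≠ 0 ∧ A = Matrix.of fun i j : Fin N => q ^ ((i : ℕ) * (j : ℕ)))) →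
      ¬ Rigid A (2 ^ 417 * (N : ℝ) ^ (1 - 1 / 90 : ℝ))
        (2 ^ 417 * (N : ℝ) ^ (2 - 1 / 90 : ℝ)) := by
    intro N hpos F _ A hA
    rcases hA with ⟨a, b, g, rfl⟩ | ⟨a, b, g, rfl⟩ | ⟨q, hq, rfl⟩
    · exact toeplitz' N hpos a b g
    · exact hankel' N hpos a b g
    · exact fourier N hpos q hq
  refine ⟨hmain, ?_⟩
  intro ε hε
  obtain ⟨N1, hN1⟩ := eventually_small (a := (1 - 1 / 91 : ℝ)) (b := (1 - 1 / 90 : ℝ))
    (C := 2 ^ 417) (by norm_num) (by norm_num) (by positivity)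
  obtain ⟨N2, hN2⟩ := eventually_small (a := (2 - 1 / 91 : ℝ)) (b := (2 - 1 / 90 : ℝ))
    (C := 2 ^ 417) (by norm_num) (by norm_num) (by positivity)
  obtain ⟨N3, hN3⟩ := eventually_small (a := (1 : ℝ)) (b := (1 - 1 / 90 : ℝ))
    (C := 2 ^ 417 / ε) (by norm_num) (by norm_num) (by positivity)
  refine ⟨N1 + N2 + N3 + 1, fun N hN F _ A hA => ?_⟩
  have h1 := hN1 N (by omega)
  have h2 := hN2 N (by omega)
  have h3 := hN3 N (by omega)
  rw [Real.rpow_one, div_mul_eq_mul_div, div_le_iff₀ hε, mul_comm (N : ℝ) ε] at h3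
  have h := hmain N (by omega) F A hA
  exact ⟨fun h' => h (h'.mono h1 h2), fun h' => h (h'.mono h3 h2)⟩

end Pool.Agent.Results.MP_0775d3_lc.ToeplitzNotRigid
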